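import Pool.Agent.helper84.LP.SpecG

/-!
# Row `lp:UCV`: uniform continuity of an invariant continuous function
-/

open scoped MatrixGroups ContDiff Topology UpperHalfPlane ComplexConjugate
open UpperHalfPlane MeasureTheory Filter Set

set_option autoImplicit false

namespace Pool.Agent.LP

open Pool.Agent.RS

theorem UCV_dist {Γ : Subgroup SL(2, ℝ)} (γ : Γ) (z w : ℍ) : dist (γ • z) (γ • w) = dist z w := by
  have h : dist ((γ : SL(2, ℝ)) • z) ((γ : SL(2, ℝ)) • w) = dist z w := dist_smul _ _ _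
  exact h

/-- uniform continuity of a continuous `Γ`-invariant function -/
theorem UCV_unif {Γ : Subgroup SL(2, ℝ)} (hΓ : QU.SurfaceGroup Γ) {V : ℍ → ℝ} (hV : QU.Inv Γ V)
    {ε : ℝ} (hε : 0 < ε) : ∃ δ : ℝ, 0 < δ ∧ ∀ z w : ℍ, dist z w < δ → |V w - V z| < ε := by
  obtain ⟨K, hK, hKΓ⟩ := hΓ.cocompact
  have h1 := hK.uniformContinuousAt_of_continuousAt V (fun z _ => hV.1.continuousAt)
    (Metric.dist_mem_uniformity hε)
  obtain ⟨δ, hδ, h2⟩ := Metric.mem_uniformity_dist.1 h1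
  refine ⟨δ, hδ, fun z w hzw => ?_⟩
  obtain ⟨γ, hγ⟩ := hKΓ z
  have h3 : dist (γ • z) (γ • w) < δ := by rw [UCV_dist]; exact hzw
  have h4 := h2 h3 hγ
  have h5 : dist (V (γ • z)) (V (γ • w)) < ε := h4
  rw [hV.2, hV.2, Real.dist_eq, abs_sub_comm] at h5
  exact h5

/-- the distance of `h • I` and `I` -/
theorem UCV_cosh (h : SL(2, ℝ)) : Real.cosh (dist (h • I) I) =
    (h.1 0 0 ^ 2 + h.1 0 1 ^ 2 + h.1 1 0 ^ 2 + h.1 1 1 ^ 2) / 2 := by
  rw [UpperHalfPlane.cosh_dist]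
  have hdet : h.1 0 0 * h.1 1 1 - h.1 0 1 * h.1 1 0 = 1 := by
    have := h.2
    rwa [Matrix.det_fin_two] at this
  set a := h.1 0 0
  set b := h.1 0 1
  set c := h.1 1 0
  set d := h.1 1 1
  have hN : 0 < c ^ 2 + d ^ 2 := by
    rcases eq_or_ne c 0 with hc | hc
    · have hd : d ≠ 0 := by rintro hd; rw [hc, hd] at hdet; simp at hdet
      positivity
    · positivity
  have hz : ((h • I : ℍ) : ℂ) = ((a : ℂ) * Complex.I + b) / ((c : ℂ) * Complex.I + d) := by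
    rw [UpperHalfPlane.coe_specialLinearGroup_apply]
    simp [a, b, c, d]
  have hne : (c : ℂ) * Complex.I + d ≠ 0 := by
    intro h0
    have h1 : Complex.normSq ((c : ℂ) * Complex.I + d) = c ^ 2 + d ^ 2 := by
      rw [Complex.normSq_apply]; simp; ring
    rw [h0] at h1
    simp at h1
    linarith
  have him : (h • I : ℍ).im = 1 / (c ^ 2 + d ^ 2) := by
    have h1 : (h • I : ℍ).im = (((a : ℂ) * Complex.I + b) / ((c : ℂ) * Complex.I + d)).im := by
      rw [← hz]; rfl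
    rw [h1, Complex.div_im]
    have h2 : Complex.normSq ((c : ℂ) * Complex.I + d) = c ^ 2 + d ^ 2 := by
      rw [Complex.normSq_apply]; simp; ring
    rw [h2]
    simp
    field_simp
    linarith
  have hdist : dist ((h • I : ℍ) : ℂ) ((I : ℍ) : ℂ) ^ 2 =
      ((b + c) ^ 2 + (a - d) ^ 2) / (c ^ 2 + d ^ 2) := by
    rw [Complex.dist_eq, ← Complex.normSq_eq_norm_sq, hz]
    have h3 : ((a : ℂ) * Complex.I + b) / ((c : ℂ) * Complex.I + d) - ((I : ℍ) : ℂ) =
        (((b + c : ℝ) : ℂ) + ((a - d : ℝ) : ℂ) * Complex.I) / ((c : ℂ) * Complex.I + d) := by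
      rw [UpperHalfPlane.coe_I, eq_div_iff hne, sub_mul, div_mul_cancel₀ _ hne]
      push_cast
      linear_combination (-(c : ℂ)) * Complex.I_sq
    rw [h3, map_div₀]
    congr 1
    · rw [Complex.normSq_apply]; simp; ring
    · rw [Complex.normSq_apply]; simp; ring
  rw [hdist, him, UpperHalfPlane.I_im]
  field_simp
  nlinarith

theorem UCV_ch (d : ℝ) (hd : 0 ≤ d) : 1 + d ^ 2 / 2 ≤ Real.cosh d := by
  have h1 : Real.cosh d = 2 * Real.sinh (d / 2) ^ 2 + 1 := by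
    have h2 := Real.cosh_two_mul (d / 2)
    have h3 := Real.cosh_sq (d / 2)
    rw [mul_div_cancel₀ d two_ne_zero] at h2
    rw [h2, h3]
    ring
  have h2 : d / 2 ≤ Real.sinh (d / 2) := Real.self_le_sinh_iff.2 (by linarith)
  rw [h1]
  nlinarith

/-- `k • I` is near `I` if the entries of `k` are near those of `1` -/
theorem UCV_near (k : SL(2, ℝ)) (δ : ℝ) (hδ : 0 < δ)
    (hk : ∀ i j : Fin 2, |k.1 i j - (1 : Matrix (Fin 2) (Fin 2) ℝ) i j| ≤ δ) :
    dist (k • I : ℍ) I ≤ 3 * δ := by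
  have hdet : k.1 0 0 * k.1 1 1 - k.1 0 1 * k.1 1 0 = 1 := by
    have := k.2
    rwa [Matrix.det_fin_two] at this
  have ha := abs_le.1 (hk 0 0)
  have hb := abs_le.1 (hk 0 1)
  have hc := abs_le.1 (hk 1 0)
  have hd := abs_le.1 (hk 1 1)
  rw [Matrix.one_apply_eq] at ha hd
  rw [Matrix.one_apply_ne (by decide)] at hb hc
  have h1 : (k.1 0 0 - k.1 1 1) ^ 2 ≤ (2 * δ) ^ 2 := by
    apply sq_le_sq'
    · linarith
    · linarith
  have h2 : (k.1 0 1 + k.1 1 0) ^ 2 ≤ (2 * δ) ^ 2 := by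
    apply sq_le_sq'
    · linarith
    · linarith
  have h3 := UCV_cosh k
  have h4 : 1 + dist (k • I : ℍ) I ^ 2 / 2 ≤ Real.cosh (dist (k • I : ℍ) I) :=
    UCV_ch _ dist_nonneg
  have h5 : dist (k • I : ℍ) I ^ 2 ≤ (3 * δ) ^ 2 := by nlinarith
  exact abs_le_of_sq_le_sq' h5 (by positivity) |>.2

theorem UCV_proof : UCV_stmt := by
  intro Γ V ε hΓ hV hε
  obtain ⟨δ, hδ, h1⟩ := UCV_unif hΓ hV hε
  refine ⟨δ / 4, by positivity, fun g k hk => ?_⟩
  have h2 := UCV_near k (δ / 4) (by positivity) hk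
  have h3 : dist (g • I : ℍ) ((g * k) • I) < δ := by
    rw [mul_smul, dist_smul, dist_comm]
    linarith
  exact (h1 _ _ h3).le

end Pool.Agent.LP
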